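import Pool.Agent.Lib.MP_95ac01_nt.H27.SolLow

/-!
# MP_95ac01_nt: module BIGP
-/

set_option autoImplicit false

namespace Pool.Agent.Lib.MP_95ac01_nt.H27

open Finset Cub

theorem card_fib (H Q : ℕ) (hQ : 1 ≤ Q) (r : ℤ) :
    ((Icc (-(H : ℤ)) H).filter fun n => n % (Q : ℤ) = r).card ≤ (2 * H + 1) / Q + 1 := by
  have hQ0 : (0 : ℤ) < Q := by exact_mod_cast hQ
  rw [← Finset.card_range ((2 * H + 1) / Q + 1)]
  refine Finset.card_le_card_of_injOn (fun n : ℤ => ((n + H) / (Q : ℤ)).toNat) ?_ ?_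
  · intro n hn
    rw [Finset.mem_coe, Finset.mem_filter, Finset.mem_Icc] at hn
    rw [Finset.mem_coe, Finset.mem_range]
    have h1 : 0 ≤ (n + H) / (Q : ℤ) := Int.ediv_nonneg (by omega) hQ0.le
    have h2 : (n + H) / (Q : ℤ) ≤ ((2 * H + 1 : ℕ) : ℤ) / (Q : ℤ) :=
      Int.ediv_le_ediv hQ0 (by push_cast; omega)
    have h3 : ((2 * H + 1 : ℕ) : ℤ) / (Q : ℤ) = (((2 * H + 1) / Q : ℕ) : ℤ) :=
      (Int.natCast_div _ _).symm
    show ((n + H) / (Q : ℤ)).toNat < (2 * H + 1) / Q + 1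
    omega
  · intro n hn n' hn' h
    rw [Finset.mem_coe, Finset.mem_filter, Finset.mem_Icc] at hn hn'
    have h1 : 0 ≤ (n + H) / (Q : ℤ) := Int.ediv_nonneg (by omega) hQ0.le
    have h1' : 0 ≤ (n' + H) / (Q : ℤ) := Int.ediv_nonneg (by omega) hQ0.le
    have h2 : (n + H) / (Q : ℤ) = (n' + H) / (Q : ℤ) := by
      have h' : ((n + H) / (Q : ℤ)).toNat = ((n' + H) / (Q : ℤ)).toNat := h
      omega
    have h3 : (n + H) % (Q : ℤ) = (n' + H) % (Q : ℤ) := by
      rw [Int.add_emod n, Int.add_emod n', hn.2, hn'.2]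
    have h4 := Int.mul_ediv_add_emod (n + H) (Q : ℤ)
    have h5 := Int.mul_ediv_add_emod (n' + H) (Q : ℤ)
    rw [h2, h3] at h4
    linarith

theorem sol_congr (Q : ℕ) (c d : Mon → ℤ) (h : ∀ m, (Q : ℤ) ∣ c m - d m) :
    sol Q c = sol Q d := by
  unfold sol
  congr 1
  ext a
  rw [mem_solSet, mem_solSet]
  have h1 := ev_congr_mod (Q : ℤ) c d a a h (by simp)
  refine and_congr_right fun _ => and_congr_right fun _ => ?_
  exact (dvd_iff_dvd_of_dvd_sub h1)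

theorem sol_eq_sum (Q : ℕ) (c : Mon → ℤ) :
    (sol Q c : ℝ) = ∑ a ∈ primRes Q, if (Q : ℤ) ∣ ev c a then (1 : ℝ) else 0 := by
  classical
  rw [Finset.sum_boole]
  unfold sol
  congr 2
  ext a
  rw [mem_solSet, Finset.mem_filter]
  unfold primRes
  rw [Finset.mem_filter]
  tauto

theorem card_resC (Q : ℕ) : (resC Q).card = Q ^ 20 := by
  unfold resC
  rw [Fintype.card_piFinset]
  simp only [Int.card_Ico, Finset.prod_const, Finset.card_univ, card_mon]
  simp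

theorem card_primRes_le (Q : ℕ) : (primRes Q).card ≤ Q ^ 4 := by
  classical
  have h1 : (resid Q).card = Q ^ 4 := by
    unfold resid
    rw [Fintype.card_piFinset]
    simp only [Int.card_Ico, Finset.prod_const, Finset.card_univ, Fintype.card_fin]
    simp
  rw [← h1]
  exact Finset.card_le_card (Finset.filter_subset _ _)

theorem umod_of_mem {Q : ℕ} {a : Fin 4 → ℤ} (h : a ∈ primRes Q) : UMod Q a := by
  simp only [primRes, Finset.mem_filter] at h
  exact h.2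

open Classical in
theorem first_moment (h1 : Bp1Statement) (Q : ℕ) (hQ : 1 ≤ Q) :
    ∑ c ∈ resC Q, (sol Q c : ℝ) = (primRes Q).card * (Q : ℝ) ^ 19 := by
  simp only [sol_eq_sum]
  rw [Finset.sum_comm]
  have : ∀ a ∈ primRes Q, ∑ c ∈ resC Q, (if (Q : ℤ) ∣ ev c a then (1 : ℝ) else 0) =
      (Q : ℝ) ^ 19 := by
    intro a ha
    rw [Finset.sum_boole]
    have := h1 Q a hQ (umod_of_mem ha)
    have e : ((resC Q).filter fun c => (Q : ℤ) ∣ ev c a).card = Q ^ 19 := by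
      rw [← this]
    rw [e]
    push_cast
    rfl
  rw [Finset.sum_congr rfl this, Finset.sum_const, nsmul_eq_mul]

open Classical in
theorem second_moment (h3 : Bp3Statement) (h4 : Bp4Statement) (Q w : ℕ) (hQ : 1 ≤ Q) (hw : 1 ≤ w)
    (hp : ∀ p : ℕ, p.Prime → p ∣ Q → w < p) :
    ∑ c ∈ resC Q, (sol Q c : ℝ) ^ 2 ≤ (Q : ℝ) ^ 26 * (1 + 1 / w) := by
  have hQ0 : (0 : ℝ) ≤ Q := Nat.cast_nonneg _
  have e1 : ∀ c, (sol Q c : ℝ) ^ 2 = ∑ a ∈ primRes Q, ∑ b ∈ primRes Q,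
      if (Q : ℤ) ∣ ev c a ∧ (Q : ℤ) ∣ ev c b then (1 : ℝ) else 0 := by
    intro c
    rw [sq, sol_eq_sum, Finset.sum_mul_sum]
    refine Finset.sum_congr rfl fun a _ => Finset.sum_congr rfl fun b _ => ?_
    by_cases ha : (Q : ℤ) ∣ ev c a <;> by_cases hb : (Q : ℤ) ∣ ev c b <;> simp [ha, hb]
  simp only [e1]
  rw [Finset.sum_comm]
  have e2 : ∀ a ∈ primRes Q, ∑ c ∈ resC Q, ∑ b ∈ primRes Q,
      (if (Q : ℤ) ∣ ev c a ∧ (Q : ℤ) ∣ ev c b then (1 : ℝ) else 0) ≤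
      (Q : ℝ) ^ 22 * (1 + 1 / w) := by
    intro a ha
    rw [Finset.sum_comm]
    calc ∑ b ∈ primRes Q, ∑ c ∈ resC Q,
          (if (Q : ℤ) ∣ ev c a ∧ (Q : ℤ) ∣ ev c b then (1 : ℝ) else 0)
        ≤ ∑ b ∈ primRes Q, (Q : ℝ) ^ 18 * ((Nat.gcd Q (gd a b) : ℕ) : ℝ) := by
          refine Finset.sum_le_sum fun b hb => ?_
          rw [Finset.sum_boole]
          have := h3 Q a b hQ (umod_of_mem ha) (umod_of_mem hb)
          have e : ((resC Q).filter fun c => (Q : ℤ) ∣ ev c a ∧ (Q : ℤ) ∣ ev c b).card ≤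
              Q ^ 18 * Nat.gcd Q (gd a b) := by
            refine le_trans (le_of_eq ?_) this
            congr 1
          exact_mod_cast e
      _ = (Q : ℝ) ^ 18 * ∑ b ∈ primRes Q, ((Nat.gcd Q (gd a b) : ℕ) : ℝ) := by
          rw [Finset.mul_sum]
      _ ≤ (Q : ℝ) ^ 18 * ((Q : ℝ) ^ 4 * (1 + 1 / w)) :=
          mul_le_mul_of_nonneg_left (h4 Q w a hQ hw hp (umod_of_mem ha)) (by positivity)
      _ = (Q : ℝ) ^ 22 * (1 + 1 / w) := by ring
  calc ∑ a ∈ primRes Q, ∑ c ∈ resC Q, ∑ b ∈ primRes Q,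
        (if (Q : ℤ) ∣ ev c a ∧ (Q : ℤ) ∣ ev c b then (1 : ℝ) else 0)
      ≤ ∑ a ∈ primRes Q, (Q : ℝ) ^ 22 * (1 + 1 / w) := Finset.sum_le_sum e2
    _ = (primRes Q).card * ((Q : ℝ) ^ 22 * (1 + 1 / w)) := by
        rw [Finset.sum_const, nsmul_eq_mul]
    _ ≤ (Q : ℝ) ^ 4 * ((Q : ℝ) ^ 22 * (1 + 1 / w)) := by
        refine mul_le_mul_of_nonneg_right ?_ (by positivity)
        exact_mod_cast card_primRes_le Q
    _ = (Q : ℝ) ^ 26 * (1 + 1 / w) := by ring

open Classical in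
theorem bad_classes (h1 : Bp1Statement) (h2 : Bp2Statement) (h3 : Bp3Statement)
    (h4 : Bp4Statement) (Q w : ℕ) (hQ : 1 ≤ Q) (hw : 1 ≤ w)
    (hp : ∀ p : ℕ, p.Prime → p ∣ Q → w < p) :
    ((resC Q).filter fun c => ¬ SC Q c).card * w ≤ 12 * Q ^ 20 := by
  have hQ1 : (1 : ℝ) ≤ Q := by exact_mod_cast hQ
  have hw1 : (1 : ℝ) ≤ w := by exact_mod_cast hw
  have m1 := first_moment h1 Q hQ
  have m2 := second_moment h3 h4 Q w hQ hw hp
  have m3 := h2 Q w hQ hw hp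
  have var : ∑ c ∈ resC Q, ((Q : ℝ) ^ 3 - sol Q c) ^ 2 ≤ 3 * (Q : ℝ) ^ 26 / w := by
    have e : ∑ c ∈ resC Q, ((Q : ℝ) ^ 3 - sol Q c) ^ 2 =
        (Q : ℝ) ^ 26 - 2 * (Q : ℝ) ^ 3 * ∑ c ∈ resC Q, (sol Q c : ℝ) +
          ∑ c ∈ resC Q, (sol Q c : ℝ) ^ 2 := by
      have : ∀ c, ((Q : ℝ) ^ 3 - sol Q c) ^ 2 =
          (Q : ℝ) ^ 6 - 2 * (Q : ℝ) ^ 3 * (sol Q c : ℝ) + (sol Q c : ℝ) ^ 2 := by
        intro c
        ring
      simp only [this]
      rw [Finset.sum_add_distrib, Finset.sum_sub_distrib, Finset.sum_const, card_resC,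
        ← Finset.mul_sum, nsmul_eq_mul]
      push_cast
      ring
    rw [e, m1]
    have h5 : (Q : ℝ) ^ 22 * ((Q : ℝ) ^ 4 * (1 - 1 / w)) ≤ (Q : ℝ) ^ 22 * (primRes Q).card :=
      mul_le_mul_of_nonneg_left m3 (by positivity)
    have h6 : 3 * (Q : ℝ) ^ 26 / w = 3 * (Q : ℝ) ^ 26 * (1 / w) := by ring
    rw [h6]
    nlinarith
  have low : (((resC Q).filter fun c => ¬ SC Q c).card : ℝ) * ((Q : ℝ) ^ 6 / 4) ≤
      ∑ c ∈ resC Q, ((Q : ℝ) ^ 3 - sol Q c) ^ 2 := by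
    rw [← nsmul_eq_mul, ← Finset.sum_const]
    calc ∑ _c ∈ (resC Q).filter (fun c => ¬ SC Q c), ((Q : ℝ) ^ 6 / 4)
        ≤ ∑ c ∈ (resC Q).filter (fun c => ¬ SC Q c), ((Q : ℝ) ^ 3 - sol Q c) ^ 2 := by
          refine Finset.sum_le_sum fun c hc => ?_
          have h5 := (Finset.mem_filter.1 hc).2
          unfold SC at h5
          push Not at h5
          have h6 : 2 * (sol Q c : ℝ) ≤ (Q : ℝ) ^ 3 := by exact_mod_cast h5.le
          have h7 : (0 : ℝ) ≤ (Q : ℝ) ^ 3 / 2 := by positivity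
          have h8 : (Q : ℝ) ^ 3 / 2 ≤ (Q : ℝ) ^ 3 - sol Q c := by linarith
          calc (Q : ℝ) ^ 6 / 4 = ((Q : ℝ) ^ 3 / 2) ^ 2 := by ring
            _ ≤ _ := pow_le_pow_left₀ h7 h8 2
      _ ≤ _ := Finset.sum_le_sum_of_subset_of_nonneg (Finset.filter_subset _ _)
          (fun c _ _ => sq_nonneg _)
  have fin : (((resC Q).filter fun c => ¬ SC Q c).card : ℝ) * w ≤ 12 * (Q : ℝ) ^ 20 := by
    have h5 := low.trans var
    rw [le_div_iff₀ (by linarith)] at h5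
    have h6 : (0 : ℝ) < (Q : ℝ) ^ 6 := by positivity
    have h7 : ((((resC Q).filter fun c => ¬ SC Q c).card : ℝ) * w) * (Q : ℝ) ^ 6 ≤
        (12 * (Q : ℝ) ^ 20) * (Q : ℝ) ^ 6 := by nlinarith
    exact le_of_mul_le_mul_right h7 h6
  exact_mod_cast fin

theorem bigp (h1 : Bp1Statement) (h2 : Bp2Statement) (h3 : Bp3Statement) (h4 : Bp4Statement) :
    BigPStatement := by
  classical
  refine ⟨12 * 2 ^ 20, ?_⟩
  intro w Q H hw hQ hp hQH
  have hQ0 : (0 : ℤ) < Q := by exact_mod_cast hQ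
  set M := (2 * H + 1) / Q + 1 with hM
  have hMQ : M * Q ≤ 2 * (2 * H + 1) := by
    have := Nat.div_mul_le_self (2 * H + 1) Q
    rw [hM, add_mul, one_mul]
    omega
  have hN := bad_classes h1 h2 h3 h4 Q w hQ hw hp
  have hcard : ((box H).filter fun c => ¬ SC Q c).card ≤
      M ^ 20 * ((resC Q).filter fun c => ¬ SC Q c).card := by
    refine Finset.card_le_mul_card_image_of_maps_to (f := fun c m => c m % (Q : ℤ)) ?_ _ ?_
    · intro c hc
      rw [Finset.mem_filter] at hc ⊢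
      refine ⟨?_, ?_⟩
      · unfold resC
        rw [Fintype.mem_piFinset]
        intro m
        rw [Finset.mem_Ico]
        exact ⟨Int.emod_nonneg _ hQ0.ne', Int.emod_lt_of_pos _ hQ0⟩
      · have h5 := sol_congr Q c (fun m => c m % (Q : ℤ))
          (fun m => Int.dvd_self_sub_emod)
        unfold SC at hc ⊢
        rw [← h5]
        exact hc.2
    · intro r _
      calc (((box H).filter fun c => ¬ SC Q c).filter fun c => (fun m => c m % (Q : ℤ)) = r).card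
          ≤ (Fintype.piFinset fun m : Mon =>
              (Icc (-(H : ℤ)) H).filter fun n => n % (Q : ℤ) = r m).card := by
            refine Finset.card_le_card ?_
            intro c hc
            rw [Finset.mem_filter, Finset.mem_filter, mem_box] at hc
            rw [Fintype.mem_piFinset]
            intro m
            rw [Finset.mem_filter, Finset.mem_Icc]
            exact ⟨abs_le.1 (hc.1.1 m), congrFun hc.2 m⟩
        _ = ∏ m : Mon, ((Icc (-(H : ℤ)) H).filter fun n => n % (Q : ℤ) = r m).card :=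
            Fintype.card_piFinset _
        _ ≤ ∏ _m : Mon, M := Finset.prod_le_prod' fun m _ => card_fib H Q hQ (r m)
        _ = M ^ 20 := by
            rw [Finset.prod_const, Finset.card_univ, card_mon]
  have e0 : ((box H).filter fun c => ¬ SC Q c).card * w ≤
      M ^ 20 * (12 * Q ^ 20) := by
    calc ((box H).filter fun c => ¬ SC Q c).card * w
        ≤ (M ^ 20 * ((resC Q).filter fun c => ¬ SC Q c).card) * w :=
          Nat.mul_le_mul_right _ hcard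
      _ = M ^ 20 * (((resC Q).filter fun c => ¬ SC Q c).card * w) := by ring
      _ ≤ _ := Nat.mul_le_mul_left _ (by
          refine le_trans (le_of_eq ?_) hN
          congr 2)
  have e1 : M ^ 20 * (12 * Q ^ 20) ≤ 12 * 2 ^ 20 * (2 * H + 1) ^ 20 := by
    calc M ^ 20 * (12 * Q ^ 20) = 12 * (M * Q) ^ 20 := by rw [mul_pow]; ring
      _ ≤ 12 * (2 * (2 * H + 1)) ^ 20 := Nat.mul_le_mul_left _ (Nat.pow_le_pow_left hMQ 20)
      _ = _ := by rw [mul_pow]; ring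
  refine le_trans (le_of_eq ?_) (e0.trans e1)
  congr 2

end Pool.Agent.Lib.MP_95ac01_nt.H27
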