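import Pool.Agent.Lib.MP_95ac01_nt.Iface

/-!
# MP_95ac01_nt: module SOLLOW
-/

set_option autoImplicit false

namespace Pool.Agent.Lib.MP_95ac01_nt.H27

open Finset Cub

theorem mem_solSet {Q : ℕ} {c : Mon → ℤ} {a : Fin 4 → ℤ} :
    a ∈ solSet Q c ↔ a ∈ resid Q ∧ UMod Q a ∧ (Q : ℤ) ∣ ev c a := by
  simp [solSet]

theorem sol_one (c : Mon → ℤ) : 1 ≤ sol 1 c := by
  unfold sol
  rw [Nat.succ_le_iff, Finset.card_pos]
  refine ⟨0, mem_solSet.2 ⟨?_, ⟨0, by simp⟩, by simp⟩⟩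
  unfold resid
  rw [Fintype.mem_piFinset]
  intro i
  simp

theorem sol_prod (hH : HenselStatement) (hC : CrtStatement) (e K : ℕ) (c : Mon → ℤ)
    (hK : 2 * e + 1 ≤ K) (s : Finset ℕ) (hs : ∀ p ∈ s, p.Prime) (hPC : ∀ p ∈ s, PC p e c) :
    (∏ p ∈ s, p ^ K) ^ 3 ≤ (∏ p ∈ s, p ^ (2 * e + 1)) ^ 3 * sol (∏ p ∈ s, p ^ K) c := by
  classical
  induction s using Finset.induction_on with
  | empty => simpa using sol_one c
  | insert p s hp ih =>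
    have hpp : p.Prime := hs p (Finset.mem_insert_self p s)
    have h1 := ih (fun q hq => hs q (Finset.mem_insert_of_mem hq))
      (fun q hq => hPC q (Finset.mem_insert_of_mem hq))
    have h2 := hH p e K c hpp (hPC p (Finset.mem_insert_self p s)) hK
    have hpos : ∀ K' : ℕ, 1 ≤ ∏ q ∈ s, q ^ K' := fun K' =>
      Finset.one_le_prod' fun q hq => Nat.one_le_pow _ _ (hs q (Finset.mem_insert_of_mem hq)).pos
    have hcop : Nat.Coprime (p ^ K) (∏ q ∈ s, q ^ K) := by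
      refine Nat.Coprime.prod_right fun q hq => ?_
      refine Nat.Coprime.pow _ _ ((Nat.coprime_primes hpp
        (hs q (Finset.mem_insert_of_mem hq))).2 ?_)
      rintro rfl
      exact hp hq
    have h3 := hC (p ^ K) (∏ q ∈ s, q ^ K) c (Nat.one_le_pow _ _ hpp.pos) (hpos K) hcop
    rw [Finset.prod_insert hp, Finset.prod_insert hp]
    calc (p ^ K * ∏ q ∈ s, q ^ K) ^ 3 = p ^ (3 * K) * (∏ q ∈ s, q ^ K) ^ 3 := by
          rw [mul_pow, ← pow_mul, mul_comm K 3]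
      _ ≤ (p ^ (3 * (2 * e + 1)) * sol (p ^ K) c) *
          ((∏ q ∈ s, q ^ (2 * e + 1)) ^ 3 * sol (∏ q ∈ s, q ^ K) c) := Nat.mul_le_mul h2 h1
      _ = (p ^ (2 * e + 1) * ∏ q ∈ s, q ^ (2 * e + 1)) ^ 3 *
          (sol (p ^ K) c * sol (∏ q ∈ s, q ^ K) c) := by
          rw [mul_pow, ← pow_mul, mul_comm (2 * e + 1) 3]
          ring
      _ ≤ _ := Nat.mul_le_mul_left _ h3

theorem qq_split (w₁ w K : ℕ) (h : w₁ ≤ w) : qq 0 w K = qq 0 w₁ K * qq w₁ w K := by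
  unfold qq
  rw [← Finset.prod_union]
  · congr 1
    rw [← Finset.filter_union]
    congr 1
    exact (Finset.Ioc_union_Ioc_eq_Ioc (Nat.zero_le _) h).symm
  · refine Finset.disjoint_filter_filter ?_
    rw [Finset.disjoint_left]
    intro a ha hb
    rw [Finset.mem_Ioc] at ha hb
    omega

theorem qq_pos (a b K : ℕ) : 1 ≤ qq a b K := by
  unfold qq
  exact Finset.one_le_prod' fun q hq => Nat.one_le_pow _ _ (Finset.mem_filter.1 hq).2.pos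

theorem qq_coprime (w₁ w K : ℕ) : Nat.Coprime (qq 0 w₁ K) (qq w₁ w K) := by
  unfold qq
  refine Nat.Coprime.prod_left fun p hp => Nat.Coprime.prod_right fun q hq => ?_
  rw [Finset.mem_filter, Finset.mem_Ioc] at hp hq
  refine Nat.Coprime.pow _ _ ((Nat.coprime_primes hp.2 hq.2).2 ?_)
  omega

theorem sollow (hH : HenselStatement) (hC : CrtStatement) : SolLowStatement := by
  intro w₁ e
  refine ⟨1 / (2 * (qq 0 w₁ (2 * e + 1) : ℝ) ^ 3), ?_, ?_⟩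
  · have : (1 : ℝ) ≤ qq 0 w₁ (2 * e + 1) := by exact_mod_cast qq_pos 0 w₁ (2 * e + 1)
    positivity
  intro w K c hw hK hPC hSC
  have h0 : (1 : ℝ) ≤ qq 0 w₁ (2 * e + 1) := by exact_mod_cast qq_pos 0 w₁ (2 * e + 1)
  have h1 : (qq 0 w₁ K) ^ 3 ≤ (qq 0 w₁ (2 * e + 1)) ^ 3 * sol (qq 0 w₁ K) c := by
    unfold qq
    refine sol_prod hH hC e K c hK _ (fun p hp => (Finset.mem_filter.1 hp).2) ?_
    intro p hp
    rw [Finset.mem_filter, Finset.mem_Ioc] at hp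
    exact hPC p hp.2 hp.1.2
  have h2 : (qq w₁ w K) ^ 3 ≤ 2 * sol (qq w₁ w K) c := hSC
  have h3 := hC (qq 0 w₁ K) (qq w₁ w K) c (qq_pos _ _ _) (qq_pos _ _ _) (qq_coprime w₁ w K)
  rw [← qq_split w₁ w K hw] at h3
  have h4 : (qq 0 w K) ^ 3 ≤ 2 * (qq 0 w₁ (2 * e + 1)) ^ 3 * sol (qq 0 w K) c := by
    rw [qq_split w₁ w K hw, mul_pow, ← qq_split w₁ w K hw]
    calc (qq 0 w₁ K) ^ 3 * (qq w₁ w K) ^ 3
        ≤ ((qq 0 w₁ (2 * e + 1)) ^ 3 * sol (qq 0 w₁ K) c) * (2 * sol (qq w₁ w K) c) :=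
          Nat.mul_le_mul h1 h2
      _ = 2 * (qq 0 w₁ (2 * e + 1)) ^ 3 * (sol (qq 0 w₁ K) c * sol (qq w₁ w K) c) := by ring
      _ ≤ _ := Nat.mul_le_mul_left _ h3
  have h5 : ((qq 0 w K : ℕ) : ℝ) ^ 3 ≤
      2 * ((qq 0 w₁ (2 * e + 1) : ℕ) : ℝ) ^ 3 * ((sol (qq 0 w K) c : ℕ) : ℝ) := by
    exact_mod_cast h4
  rw [div_mul_eq_mul_div, one_mul, div_le_iff₀ (by positivity)]
  linarith

end Pool.Agent.Lib.MP_95ac01_nt.H27
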